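import Mathlib.Topology.Sheaves.Presheaf
import Mathlib.Tactic.Monotonicity.Lemmas
import Mathlib.RingTheory.Flat.TorsionFree
import Mathlib.Algebra.Order.Star.Real
import Mathlib.Analysis.CStarAlgebra.Classes
import Mathlib.Analysis.Calculus.SmoothSeries
import Mathlib.Analysis.Real.Pi.Bounds
import Mathlib.RingTheory.SimpleRing.Principal
import Mathlib.Order.CompletePartialOrder
import Mathlib.SetTheory.ZFC.PSet
import Pool.Agent.MP_8ac6f3_ag.Calc

-- ======== part 0: formerly Pool.Agent.MP_8ac6f3_ag.kh7.Chi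
section MrgPart0

/-! A convex function of arbitrarily fast growth with small derivatives. -/

open Set Filter
open scoped ContDiff Topology

noncomputable section

namespace Pool.Agent.MP_8ac6f3_ag.K7

def p0 (a y : ℝ) : ℝ := a / (a ^ 2 + y ^ 2)
def p1 (a y : ℝ) : ℝ := -(2 * a * y) / (a ^ 2 + y ^ 2) ^ 2
def p2 (a y : ℝ) : ℝ := a * (6 * y ^ 2 - 2 * a ^ 2) / (a ^ 2 + y ^ 2) ^ 3

variable {a : ℝ}

theorem d0 (ha : 1 ≤ a) (y : ℝ) : HasDerivAt (fun y => Real.arctan (y / a)) (p0 a y) y := by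
  refine (((hasDerivAt_id y).div_const a).arctan).congr_deriv ?_
  unfold p0
  simp only [id]
  field_simp

theorem den (y : ℝ) : HasDerivAt (fun y => a ^ 2 + y ^ 2) (2 * y) y := by
  simpa using (hasDerivAt_pow 2 y).const_add (a ^ 2)

theorem d1 (ha : 1 ≤ a) (y : ℝ) : HasDerivAt (p0 a) (p1 a y) y := by
  refine ((hasDerivAt_const y a).div (den y) (by positivity)).congr_deriv ?_
  unfold p1
  ring

theorem d2' (ha : 1 ≤ a) (y : ℝ) : HasDerivAt (p1 a) (p2 a y) y := by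
  refine ((((hasDerivAt_id y).const_mul (2 * a)).neg).div ((den y).pow 2)
    (by simp only [Pi.pow_apply]; positivity)).congr_deriv ?_
  unfold p2
  simp only [id, Pi.pow_apply, Pi.neg_apply]
  have : a ^ 2 + y ^ 2 ≠ 0 := by positivity
  field_simp
  ring

theorem p0_pos (ha : 1 ≤ a) (y : ℝ) : 0 < p0 a y := by unfold p0; positivity

theorem p0_le (ha : 1 ≤ a) (y : ℝ) : p0 a y ≤ 1 / a := by
  unfold p0
  rw [div_le_div_iff₀ (by positivity) (by positivity)]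
  nlinarith [sq_nonneg y]

theorem p1_le (ha : 1 ≤ a) (y : ℝ) : |p1 a y| ≤ p0 a y := by
  have h : 0 < a ^ 2 + y ^ 2 := by positivity
  have e : p1 a y = p0 a y * (-(2 * y) / (a ^ 2 + y ^ 2)) := by
    unfold p0 p1
    field_simp
  rw [e, abs_mul, abs_of_pos (p0_pos ha y)]
  refine mul_le_of_le_one_right (p0_pos ha y).le ?_
  rw [abs_div, abs_of_pos h, div_le_one h, abs_le]
  constructor <;> nlinarith [sq_nonneg (y - 1), sq_nonneg (y + 1)]

theorem p2_le (ha : 1 ≤ a) (y : ℝ) : |p2 a y| ≤ 6 * p0 a y := by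
  have h : 0 < a ^ 2 + y ^ 2 := by positivity
  have e : p2 a y = p0 a y * ((6 * y ^ 2 - 2 * a ^ 2) / (a ^ 2 + y ^ 2) ^ 2) := by
    unfold p0 p2
    field_simp
  rw [e, abs_mul, abs_of_pos (p0_pos ha y), mul_comm]
  refine mul_le_mul_of_nonneg_right ?_ (p0_pos ha y).le
  have h1 : 1 ≤ a ^ 2 + y ^ 2 := by nlinarith [sq_nonneg y]
  rw [abs_div, abs_of_pos (pow_pos h 2), div_le_iff₀ (pow_pos h 2), abs_le]
  constructor <;> nlinarith [sq_nonneg y, sq_nonneg a]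

theorem p1_neg (ha : 1 ≤ a) {y : ℝ} (hy : 0 ≤ y) : p1 a y ≤ 0 :=
  div_nonpos_of_nonpos_of_nonneg (neg_nonpos.2 (by positivity)) (by positivity)

theorem p2_cont (ha : 1 ≤ a) : Continuous (p2 a) :=
  Continuous.div (by fun_prop) (by fun_prop) fun y => by positivity

/-- A concave function of slow growth. -/
theorem slow (t : ℕ → ℝ) (hm : Monotone t) (h1 : ∀ k : ℕ, (k : ℝ) + 1 ≤ t k) :
    ∃ S s0 s1 s2 : ℝ → ℝ, S 0 = 0 ∧ Function.Surjective S ∧ Continuous s2 ∧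
      (∀ y, HasDerivAt S (s0 y) y ∧ HasDerivAt s0 (s1 y) y ∧ HasDerivAt s1 (s2 y) y ∧
        p0 (t 0) y ≤ s0 y ∧ s0 y ≤ 2 ∧ |s1 y| ≤ s0 y ∧ |s2 y| ≤ 6 * s0 y ∧ (0 ≤ y → s1 y ≤ 0)) ∧
      ∀ (m : ℕ) y, 0 ≤ y → y ≤ t m → S y ≤ 2 * m + 2 := by
  set x : ℕ → ℝ := fun k => 2 ^ k * t k with hx
  have t1 : ∀ k, 1 ≤ t k := fun k => le_trans (by linarith [k.cast_nonneg (α := ℝ)]) (h1 k)
  have x2 : ∀ k, 2 ^ k ≤ x k := fun k => le_mul_of_one_le_right (by positivity) (t1 k)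
  have x1 : ∀ k, 1 ≤ x k := fun k => (one_le_pow₀ one_le_two).trans (x2 k)
  have b0 : ∀ k y, p0 (x k) y ≤ (1 / 2) ^ k := fun k y => (p0_le (x1 k) y).trans (by
    rw [one_div_pow]
    exact one_div_le_one_div_of_le (by positivity) (x2 k))
  have hg := summable_geometric_two
  have n0 : ∀ k y, ‖p0 (x k) y‖ ≤ (1 / 2) ^ k := fun k y => by
    rw [Real.norm_of_nonneg (p0_pos (x1 k) y).le]
    exact b0 k y
  have n1 : ∀ k y, ‖p1 (x k) y‖ ≤ (1 / 2) ^ k := fun k y => (p1_le (x1 k) y).trans (b0 k y)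
  have n2 : ∀ k y, ‖p2 (x k) y‖ ≤ 6 * (1 / 2) ^ k := fun k y =>
    (p2_le (x1 k) y).trans (by linarith [b0 k y])
  have m0 : ∀ y, Summable fun k => p0 (x k) y := fun y => .of_norm_bounded hg fun k => n0 k y
  have m1 : ∀ y, Summable fun k => p1 (x k) y := fun y => .of_norm_bounded hg fun k => n1 k y
  have m2 : ∀ y, Summable fun k => p2 (x k) y := fun y =>
    .of_norm_bounded (hg.mul_left 6) fun k => n2 k y
  have z : Summable fun k => Real.arctan (0 / x k) := by simp [summable_zero]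
  have mS : ∀ y, Summable fun k => Real.arctan (y / x k) :=
    summable_of_summable_hasDerivAt hg (fun k => d0 (x1 k)) n0 z
  have dS := hasDerivAt_tsum hg (fun k => d0 (x1 k)) n0 z
  have cS : Continuous fun y => ∑' k, Real.arctan (y / x k) :=
    continuous_iff_continuousAt.2 fun y => (dS y).continuousAt
  have top : Tendsto (fun y => ∑' k, Real.arctan (y / x k)) atTop atTop := by
    refine tendsto_atTop.2 fun c => ?_
    obtain ⟨m, hc⟩ := exists_nat_ge (2 * c)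
    filter_upwards [eventually_ge_atTop (∑ k ∈ Finset.range m, x k)] with y hy
    have y0 : 0 ≤ y := (Finset.sum_nonneg fun k _ => zero_le_one.trans (x1 k)).trans hy
    refine le_trans ?_ ((mS y).sum_le_tsum (Finset.range m) fun k _ =>
      Real.arctan_nonneg.2 (div_nonneg y0 (zero_le_one.trans (x1 k))))
    refine le_trans ?_ (Finset.card_nsmul_le_sum _ _ (1 / 2) fun k hk => ?_)
    · rw [Finset.card_range, nsmul_eq_mul]
      linarith
    · have h2 : x k ≤ y :=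
        (Finset.single_le_sum (fun k _ => zero_le_one.trans (x1 k)) hk).trans hy
      have h3 := Real.arctan_strictMono.monotone ((one_le_div (one_pos.trans_le (x1 k))).2 h2)
      rw [Real.arctan_one] at h3
      linarith [Real.pi_gt_three]
  refine ⟨fun y => ∑' k, Real.arctan (y / x k), fun y => ∑' k, p0 (x k) y,
    fun y => ∑' k, p1 (x k) y, fun y => ∑' k, p2 (x k) y, by simp, cS.surjective top ?_,
    continuous_tsum (fun k => p2_cont (x1 k)) (hg.mul_left 6) n2, fun y => ⟨dS y,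
      hasDerivAt_tsum hg (fun k => d1 (x1 k)) n1 (m0 0) y,
      hasDerivAt_tsum (hg.mul_left 6) (fun k => d2' (x1 k)) n2 (m1 0) y, ?_, ?_, ?_, ?_,
      fun hy => tsum_nonpos fun k => p1_neg (x1 k) hy⟩, fun m y y0 hy => ?_⟩
  · refine (tendsto_neg_atTop_atBot.comp (top.comp tendsto_neg_atBot_atTop)).congr fun y => ?_
    simp only [Function.comp, neg_div, Real.arctan_neg, tsum_neg, neg_neg]
  · simpa [hx] using (m0 y).le_tsum 0 fun k _ => (p0_pos (x1 k) y).le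
  · exact ((m0 y).tsum_le_tsum (fun k => b0 k y) hg).trans_eq tsum_geometric_two
  · exact tsum_of_norm_bounded (f := fun k => p1 (x k) y) (m0 y).hasSum fun k => p1_le (x1 k) y
  · exact tsum_of_norm_bounded (f := fun k => p2 (x k) y) ((m0 y).hasSum.mul_left 6)
      fun k => p2_le (x1 k) y
  · have hs : HasSum (fun k => if k ∈ Finset.range m then (2 : ℝ) else 0) (2 * m) := by
      have := hasSum_sum_of_ne_finset_zero (L := .unconditional ℕ)
        (f := fun k => if k ∈ Finset.range m then (2 : ℝ) else 0) (s := Finset.range m)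
        fun k hk => if_neg hk
      rwa [Finset.sum_ite_of_true fun _ h => h, Finset.sum_const, Finset.card_range, nsmul_eq_mul,
        mul_comm] at this
    refine hasSum_le (fun k => ?_) (mS y).hasSum (hs.add hasSum_geometric_two)
    split_ifs with hk
    · have := Real.arctan_lt_pi_div_two (y / x k)
      have h2 : (0 : ℝ) ≤ (1 / 2) ^ k := by positivity
      linarith [Real.pi_le_four]
    · have h2 : y ≤ t k := hy.trans (hm (not_lt.1 fun h => hk (Finset.mem_range.2 h)))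
      have h3 : y / x k ≤ (1 / 2) ^ k := by
        rw [div_le_iff₀ (one_pos.trans_le (x1 k)), hx, ← mul_assoc, ← mul_pow]
        simpa using h2
      have h4 : 0 ≤ y / x k := div_nonneg y0 (zero_le_one.trans (x1 k))
      have h5 := Real.le_tan (Real.arctan_nonneg.2 h4) (Real.arctan_lt_pi_div_two _)
      rw [Real.tan_arctan] at h5
      linarith

theorem poly {y : ℝ} (hy : 0 ≤ y) : (1 + y ^ 2) ^ 3 ≤ 649 ^ 3 * Real.exp (y / 6) := by
  have h := Real.pow_div_factorial_le_exp (y / 18) (by positivity) 2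
  have h1 := Real.one_le_exp (show 0 ≤ y / 18 by positivity)
  have e : Real.exp (y / 6) = Real.exp (y / 18) ^ 3 := by
    rw [← Real.exp_nat_mul]
    congr 1
    ring
  rw [e, ← mul_pow]
  refine pow_le_pow_left₀ (by positivity) ?_ 3
  norm_num [Nat.factorial] at h
  nlinarith

/-- The convex function. -/
theorem chi (b : ℕ → ℝ) : ∃ (χ : ℝ → ℝ) (C : ℝ), 1 ≤ C ∧ ContDiff ℝ 3 χ ∧
    (∀ c, ∃ d, ∀ x, χ x ≤ c → x ≤ d) ∧ ∀ x, 0 ≤ x → 0 ≤ χ x ∧ 1 / 2 ≤ deriv χ x ∧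
      0 ≤ deriv (deriv χ) x ∧
      (∀ j : ℕ, 1 ≤ j → j ≤ 3 → |iteratedDeriv j χ x| ≤ C * Real.exp (χ x / 6)) ∧
      ∃ m : ℕ, x ≤ m ∧ b m ≤ C * Real.exp (χ x / 6) := by
  set t : ℕ → ℝ := fun m => ∑ i ∈ Finset.range (m + 1), (1 + 6 * |b (2 * i + 4)|) with ht
  have hm : Monotone t := fun i j h => Finset.sum_le_sum_of_subset_of_nonneg
    (Finset.range_mono (by omega)) fun _ _ _ => by positivity
  have h1 : ∀ k : ℕ, (k : ℝ) + 1 ≤ t k := fun k => by
    have := Finset.card_nsmul_le_sum (Finset.range (k + 1)) (fun i => 1 + 6 * |b (2 * i + 4)|) 1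
      fun i _ => le_add_of_nonneg_right (by positivity)
    simpa using this
  have h2 : ∀ k, 6 * |b (2 * k + 4)| ≤ t k := fun k => by
    have := Finset.single_le_sum (f := fun i => 1 + 6 * |b (2 * i + 4)|)
      (fun i _ => by positivity) (Finset.self_mem_range_succ k)
    linarith
  obtain ⟨S, s0, s1, s2, z, hsur, c2, hd, hS⟩ := slow t hm h1
  have t0 : 1 ≤ t 0 := by simpa using h1 0
  have sp : ∀ y, 0 < s0 y := fun y => (p0_pos t0 y).trans_le (hd y).2.2.2.1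
  have sm : StrictMono S := strictMono_of_deriv_pos fun y => by rw [(hd y).1.deriv]; exact sp y
  let e := sm.orderIsoOfSurjective S hsur
  have e1 : ∀ x, S (e.symm x) = x := e.apply_symm_apply
  have e2 : ∀ y, e.symm (S y) = y := e.symm_apply_apply
  have ce : Continuous e.symm := e.symm.continuous
  generalize hχ : (e.symm : ℝ → ℝ) = χ at e1 e2 ce
  have mχ : Monotone χ := hχ ▸ e.symm.monotone
  have a1 : ∀ x, HasDerivAt χ (s0 (χ x))⁻¹ x := fun x =>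
    HasDerivAt.of_local_left_inverse ce.continuousAt (hd _).1 (sp _).ne' (Eventually.of_forall e1)
  have a2 : ∀ x, HasDerivAt (fun x => (s0 (χ x))⁻¹) (-s1 (χ x) * (s0 (χ x))⁻¹ ^ 3) x := fun x => by
    refine (((hd _).2.1.comp x (a1 x)).inv (sp _).ne').congr_deriv ?_
    have := (sp (χ x)).ne'
    simp only [Function.comp]
    field_simp
  have a3 : ∀ x, HasDerivAt (fun x => -s1 (χ x) * (s0 (χ x))⁻¹ ^ 3)
      (-s2 (χ x) * (s0 (χ x))⁻¹ ^ 4 + 3 * s1 (χ x) ^ 2 * (s0 (χ x))⁻¹ ^ 5) x := fun x => by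
    refine ((((hd _).2.2.1.comp x (a1 x)).neg).mul ((a2 x).pow 3)).congr_deriv ?_
    simp only [Function.comp, Pi.pow_apply, Pi.neg_apply]
    ring
  have f1 : deriv χ = _ := funext fun x => (a1 x).deriv
  have f2 : deriv (deriv χ) = _ := (congrArg deriv f1).trans (funext fun x => (a2 x).deriv)
  have f3 : deriv (deriv (deriv χ)) = _ := (congrArg deriv f2).trans (funext fun x => (a3 x).deriv)
  have c0 : Continuous fun x => (s0 (χ x))⁻¹ :=
    continuous_iff_continuousAt.2 fun x => (a2 x).continuousAt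
  have c1 : Continuous s1 := continuous_iff_continuousAt.2 fun y => (hd y).2.2.1.continuousAt
  refine ⟨χ, 9 * t 0 ^ 3 * 649 ^ 3 + |b 2|, ?_, ?_, fun c => ⟨S c, fun x hx => ?_⟩, fun x hx => ?_⟩
  · have := one_le_pow₀ t0 (n := 3)
    linarith [abs_nonneg (b 2)]
  · rw [show (3 : WithTop ℕ∞) = 0 + 1 + 1 + 1 from rfl]
    refine contDiff_succ_iff_deriv.2 ⟨fun x => (a1 x).differentiableAt, by simp,
      contDiff_succ_iff_deriv.2 ⟨f1 ▸ fun x => (a2 x).differentiableAt, by simp,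
        contDiff_succ_iff_deriv.2 ⟨f2 ▸ fun x => (a3 x).differentiableAt, by simp, ?_⟩⟩⟩
    rw [f3, contDiff_zero]
    fun_prop
  · rw [← e1 x]
    exact sm.monotone hx
  have y0 : 0 ≤ χ x := by
    have := mχ (z.trans_le hx)
    rwa [e2] at this
  obtain ⟨-, -, -, l0, u0, u1, u2, n1⟩ := hd (χ x)
  have p := sp (χ x)
  have ex := Real.one_le_exp (show 0 ≤ χ x / 6 by positivity)
  set w := (s0 (χ x))⁻¹ with hw
  have w0 : 0 < w := inv_pos.2 p
  have ws : s0 (χ x) * w = 1 := mul_inv_cancel₀ p.ne'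
  have w1 : 1 / 2 ≤ w := by nlinarith
  have w2 : w ≤ t 0 * (1 + χ x ^ 2) := by
    refine (inv_anti₀ (p0_pos t0 _) l0).trans ?_
    unfold p0
    rw [inv_div, div_le_iff₀ (by positivity)]
    nlinarith [mul_nonneg (sq_nonneg (χ x)) (show 0 ≤ t 0 ^ 2 - 1 by nlinarith)]
  have w3 : 9 * w ^ 3 ≤ (9 * t 0 ^ 3 * 649 ^ 3 + |b 2|) * Real.exp (χ x / 6) := by
    have := pow_le_pow_left₀ w0.le w2 3
    rw [mul_pow] at this
    have h3 := mul_le_mul_of_nonneg_left (poly y0) (show 0 ≤ t 0 ^ 3 by positivity)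
    have h4 : 0 ≤ |b 2| * Real.exp (χ x / 6) := by positivity
    linarith
  have v1 : |s1 (χ x) * w| ≤ 1 := by
    rw [abs_mul, abs_of_pos w0, ← ws]
    exact mul_le_mul_of_nonneg_right u1 w0.le
  have v2 : |s2 (χ x) * w| ≤ 6 := by
    rw [abs_mul, abs_of_pos w0]
    linarith [mul_le_mul_of_nonneg_right u2 w0.le]
  refine ⟨y0, f1 ▸ w1, f2 ▸ mul_nonneg (neg_nonneg.2 (n1 y0)) (by positivity),
    fun j j1 j3 => le_trans ?_ w3, ?_⟩
  · rw [iteratedDeriv_eq_iterate]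
    interval_cases j
    · show |deriv χ x| ≤ _
      rw [f1, abs_of_pos w0]
      nlinarith [mul_pos w0 w0]
    · show |deriv (deriv χ) x| ≤ _
      rw [f2]
      show |-s1 (χ x) * w ^ 3| ≤ _
      rw [show -s1 (χ x) * w ^ 3 = -(s1 (χ x) * w * w ^ 2) by ring, abs_neg, abs_mul,
        abs_of_pos (pow_pos w0 2)]
      nlinarith [mul_pos w0 w0, mul_le_mul_of_nonneg_right v1 (pow_pos w0 2).le]
    · show |deriv (deriv (deriv χ)) x| ≤ _
      rw [f3]
      show |-s2 (χ x) * w ^ 4 + 3 * s1 (χ x) ^ 2 * w ^ 5| ≤ _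
      rw [show -s2 (χ x) * w ^ 4 + 3 * s1 (χ x) ^ 2 * w ^ 5 =
        (3 * (s1 (χ x) * w) ^ 2 - s2 (χ x) * w) * w ^ 3 by ring, abs_mul,
        abs_of_pos (pow_pos w0 3)]
      refine mul_le_mul_of_nonneg_right (abs_le.2 ?_) (by positivity)
      obtain ⟨q1, q2⟩ := abs_le.1 v1
      obtain ⟨q3, q4⟩ := abs_le.1 v2
      constructor <;> nlinarith [sq_nonneg (s1 (χ x) * w)]
  · have hex : ∃ m, χ x ≤ t m := by
      obtain ⟨m, h⟩ := exists_nat_ge (χ x)
      exact ⟨m, by linarith [h1 m]⟩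
    classical
    have k1 := hS _ _ y0 (Nat.find_spec hex)
    rw [e1] at k1
    refine ⟨2 * Nat.find hex + 2, by exact_mod_cast k1, (le_abs_self _).trans ?_⟩
    have c3 : 1 ≤ 9 * t 0 ^ 3 * 649 ^ 3 := by linarith [one_le_pow₀ t0 (n := 3)]
    rcases h : Nat.find hex with _ | k
    · exact le_trans (by linarith) (le_mul_of_one_le_right (by positivity) ex)
    · have k2 : t k < χ x := not_le.1 (Nat.find_min hex (by omega))
      have k3 := Real.add_one_le_exp (χ x / 6)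
      rw [show 2 * (k + 1) + 2 = 2 * k + 4 by ring]
      refine le_trans (by linarith [h2 k]) (le_mul_of_one_le_left (by positivity) ?_)
      linarith [abs_nonneg (b 2)]

end Pool.Agent.MP_8ac6f3_ag.K7

end

end MrgPart0

-- ======== part 1: formerly Pool.Agent.MP_8ac6f3_ag.kh7.Refine
section MrgPart1

/-! Refinement of an atlas by small balls of slowly varying radius. -/

open Set Metric Complex Filter
open scoped ContDiff Topology

noncomputable section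

namespace Pool.Agent.MP_8ac6f3_ag.K7

variable {M : Type} [NormedAddCommGroup M]

theorem net {R : M → ℝ} (hR : ∀ x, 0 < R x) : ∃ S : Set M, S ⊆ ball 0 1 ∧
    (∀ c ∈ S, ∀ d ∈ S, c ≠ d → min (R c) (R d) ≤ ‖c - d‖) ∧
    ∀ x ∈ ball (0 : M) 1, ∃ c ∈ S, ‖x - c‖ < R c := by
  obtain ⟨S, hS⟩ := zorn_subset
    {S : Set M | S ⊆ ball 0 1 ∧ ∀ c ∈ S, ∀ d ∈ S, c ≠ d → min (R c) (R d) ≤ ‖c - d‖} fun C hC hc =>
    ⟨⋃₀ C, ⟨sUnion_subset fun t ht => (hC ht).1, by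
      rintro c ⟨s, hs, hcs⟩ d ⟨t, ht, hdt⟩ hne
      rcases hc.total hs ht with h | h
      · exact (hC ht).2 c (h hcs) d hdt hne
      · exact (hC hs).2 c hcs d (h hdt) hne⟩, fun s hs => subset_sUnion_of_mem hs⟩
  refine ⟨S, hS.prop.1, hS.prop.2, fun x hx => ?_⟩
  by_contra h
  push Not at h
  have h1 : insert x S ⊆ S := hS.le_of_ge ⟨insert_subset hx hS.prop.1, by
    rintro c (rfl | hc) d (rfl | hd) hne
    · exact (hne rfl).elim
    · exact (min_le_right _ _).trans (h d hd)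
    · rw [norm_sub_rev]; exact (min_le_left _ _).trans (h c hc)
    · exact hS.prop.2 c hc d hd hne⟩ (subset_insert _ _)
  have := h x (h1 (mem_insert _ _))
  rw [sub_self, norm_zero] at this
  linarith [hR x]

variable [NormedSpace ℝ M]

theorem count [ProperSpace M] : ∃ N : ℕ, ∀ (r : ℝ) (S : Set M) (x : M), 0 < r →
    (∀ c ∈ S, ∀ d ∈ S, c ≠ d → r ≤ ‖c - d‖) →
    ∃ T : Finset M, T.card ≤ N ∧ ∀ c ∈ S, ‖c - x‖ ≤ 4 * r → c ∈ T := by
  classical
  obtain ⟨t, -, tf, ht⟩ := (isCompact_closedBall (0 : M) 4).finite_cover_balls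
    (show (0 : ℝ) < 1 / 2 by norm_num)
  refine ⟨tf.toFinset.card, fun r S x hr hS => ⟨tf.toFinset.image fun p =>
    if h : ∃ c ∈ S, r⁻¹ • (c - x) ∈ ball p (1 / 2) then h.choose else 0, Finset.card_image_le,
    fun c hc h => ?_⟩⟩
  have h1 : r⁻¹ • (c - x) ∈ closedBall (0 : M) 4 := by
    rw [mem_closedBall_zero_iff, norm_smul, Real.norm_of_nonneg (inv_pos.2 hr).le,
      inv_mul_le_iff₀ hr]
    linarith
  obtain ⟨p, hp, h2⟩ := mem_iUnion₂.1 (ht h1)
  have h3 : ∃ c ∈ S, r⁻¹ • (c - x) ∈ ball p (1 / 2) := ⟨c, hc, h2⟩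
  refine Finset.mem_image.2 ⟨p, tf.mem_toFinset.2 hp, ?_⟩
  rw [dif_pos h3]
  by_contra hne
  have h4 := hS _ h3.choose_spec.1 c hc hne
  have h5 := dist_triangle_right (r⁻¹ • (h3.choose - x)) (r⁻¹ • (c - x)) p
  rw [dist_eq_norm, ← smul_sub, sub_sub_sub_cancel_right, norm_smul,
    Real.norm_of_nonneg (inv_pos.2 hr).le] at h5
  have h6 := (le_inv_mul_iff₀ hr).2 ((mul_one r).trans_le h4)
  linarith [mem_ball.1 h2, mem_ball.1 h3.choose_spec.2]

theorem aff_norm {c ξ : M} {r s : ℝ} (hr : 0 < r) (hξ : ‖ξ‖ < s) : ‖c + r • ξ - c‖ < s * r := by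
  rw [add_sub_cancel_left, norm_smul, Real.norm_of_nonneg hr.le, mul_comm]
  exact mul_lt_mul_of_pos_right hξ hr

theorem aff_mem {c ξ : M} {r : ℝ} (hc : c ∈ ball (0 : M) 1) (hr : 0 < r) (hr3 : r ≤ 1 / 3)
    (hξ : ξ ∈ ball (0 : M) 3) : c + r • ξ ∈ ball (0 : M) 2 := by
  rw [mem_ball_zero_iff] at *
  linarith [aff_norm (c := c) hr hξ, norm_le_insert' (c + r • ξ) c]

theorem aff_inv (c x : M) {r : ℝ} (hr : 0 < r) : c + r • r⁻¹ • (x - c) = x := by
  rw [smul_inv_smul₀ hr.ne', add_sub_cancel]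

theorem inv_aff (c ξ : M) {r : ℝ} (hr : 0 < r) : r⁻¹ • (c + r • ξ - c) = ξ := by
  rw [add_sub_cancel_left, inv_smul_smul₀ hr.ne']

omit [NormedSpace ℝ M] in
theorem b23 : ball (0 : M) 2 ⊆ ball 0 3 := ball_subset_ball (by norm_num)

variable [NormedSpace ℂ M] [IsScalarTower ℝ ℂ M] {Y A : Type} [TopologicalSpace Y]

theorem rsmul (r : ℝ) (x : M) : r • x = (r : ℂ) • x := (algebraMap_smul ℂ r x).symm

omit [NormedSpace ℝ M] [IsScalarTower ℝ ℂ M] in
/-- A function that is continuous in the charts is continuous. -/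
theorem cont (a : Atl M Y A) {E : Type} [TopologicalSpace E] {G : Y → E}
    (h : ∀ α, ContinuousOn (G ∘ a.ψ α) (ball 0 3)) : Continuous G := by
  refine continuous_iff_continuousAt.2 fun y => ?_
  obtain ⟨α, ξ, hξ, rfl⟩ := a.cov y
  have hξ' : ξ ∈ ball (0 : M) 3 := ball_subset_ball (by norm_num) hξ
  intro s hs
  have h1 := ((h α).continuousAt (isOpen_ball.mem_nhds hξ')) hs
  obtain ⟨U, hU, ho, hx⟩ := _root_.mem_nhds_iff.1 (inter_mem h1 (isOpen_ball.mem_nhds hξ'))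
  rw [mem_map]
  refine mem_of_superset ((a.opn α U ho fun _ hu => (hU hu).2).mem_nhds ⟨ξ, hx, rfl⟩) ?_
  rintro _ ⟨u, hu, rfl⟩
  exact (hU hu).1

omit [NormedSpace ℝ M] [IsScalarTower ℝ ℂ M] in
/-- It suffices to check holomorphy on the small balls. -/
theorem hol_of (a : Atl M Y A) {g : Y → ℂ}
    (key : ∀ β, ∀ c ∈ ball (0 : M) 1, DifferentiableAt ℂ (g ∘ a.ψ β) c) : a.Hol g := by
  intro α ξ hξ
  apply DifferentiableAt.differentiableWithinAt
  obtain ⟨β, c, hc, e⟩ := a.cov (a.ψ α ξ)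
  have hc3 : c ∈ ball (0 : M) 3 := ball_subset_ball (by norm_num) hc
  have hτ := (a.tr α β ξ hξ ⟨c, hc3, e⟩).1.differentiableAt one_ne_zero
  have hτξ : Function.invFunOn (a.ψ β) (ball 0 3) (a.ψ α ξ) = c := by
    rw [← e]; exact (a.inj β).leftInvOn_invFunOn hc3
  have hk : DifferentiableAt ℂ (g ∘ a.ψ β) (Function.invFunOn (a.ψ β) (ball 0 3) (a.ψ α ξ)) := by
    rw [hτξ]; exact key β c hc
  refine (hk.comp ξ hτ).congr_of_eventuallyEq ?_
  have hcont : ContinuousAt (a.ψ α) ξ := (a.cont α).continuousAt (isOpen_ball.mem_nhds hξ)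
  have ho : IsOpen (a.ψ β '' ball 0 3) := a.opn β _ isOpen_ball subset_rfl
  filter_upwards [hcont.preimage_mem_nhds (ho.mem_nhds ⟨c, hc3, e⟩)] with ξ' h'
  simp only [Function.comp]
  rw [Function.invFunOn_eq h']

/-- A slowly varying radius. -/
structure Rad (a : Atl M Y A) (r : Y → ℝ) : Prop where
  pos : ∀ y, 0 < r y
  le : ∀ y, r y ≤ 1 / 3
  lip : ∀ α, ∀ ξ ∈ ball (0 : M) 2, ∀ ξ' ∈ ball (0 : M) 2,
    |r (a.ψ α ξ) - r (a.ψ α ξ')| ≤ ‖ξ - ξ'‖ / 12

variable {a : Atl M Y A} {r : Y → ℝ}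

/-- The small chart with centre `c`. -/
def sm (a : Atl M Y A) (r : Y → ℝ) (p : A × M) (ξ : M) : Y := a.ψ p.1 (p.2 + r (a.ψ p.1 p.2) • ξ)

omit [IsScalarTower ℝ ℂ M] in
theorem Rad.cmp (h : Rad a r) {p : A × M} (hp : p.2 ∈ ball (0 : M) 1) {ξ : M}
    (hξ : ξ ∈ ball (0 : M) 3) :
    3 / 4 * r (a.ψ p.1 p.2) ≤ r (sm a r p ξ) ∧ r (sm a r p ξ) ≤ 5 / 4 * r (a.ψ p.1 p.2) := by
  have h1 := abs_le.1 (h.lip p.1 _ (aff_mem hp (h.pos (a.ψ p.1 p.2)) (h.le _) hξ) _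
    (ball_subset_ball one_le_two hp))
  have h2 := aff_norm (c := p.2) (h.pos (a.ψ p.1 p.2)) (mem_ball_zero_iff.1 hξ)
  unfold sm
  constructor <;> linarith [h1.1, h1.2]

omit [IsScalarTower ℝ ℂ M] in
theorem Rad.cont (h : Rad a r) {p : A × M} (hp : p.2 ∈ ball (0 : M) 1) :
    ContinuousOn (sm a r p) (ball 0 3) :=
  (a.cont p.1).comp (by fun_prop) fun _ hξ => b23 (aff_mem hp (h.pos _) (h.le _) hξ)

omit [IsScalarTower ℝ ℂ M] in
theorem Rad.inj (h : Rad a r) {p : A × M} (hp : p.2 ∈ ball (0 : M) 1) :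
    InjOn (sm a r p) (ball 0 3) := fun _ hx _ hy e =>
  smul_right_injective M (h.pos _).ne' (add_left_cancel (a.inj p.1
    (b23 (aff_mem hp (h.pos _) (h.le _) hx)) (b23 (aff_mem hp (h.pos _) (h.le _) hy)) e))

omit [IsScalarTower ℝ ℂ M] in
theorem Rad.opn (h : Rad a r) {p : A × M} (hp : p.2 ∈ ball (0 : M) 1) {U : Set M} (hU : IsOpen U)
    (h3 : U ⊆ ball 0 3) : IsOpen (sm a r p '' U) := by
  have e : sm a r p '' U = a.ψ p.1 '' ((fun ξ => p.2 + r (a.ψ p.1 p.2) • ξ) '' U) := by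
    rw [image_image]
    rfl
  rw [e]
  refine a.opn _ _ (((isOpenMap_add_left p.2).comp (isOpenMap_smul₀ (h.pos _).ne')) U hU) ?_
  rintro _ ⟨ξ, hξ, rfl⟩
  exact b23 (aff_mem hp (h.pos _) (h.le _) (h3 hξ))

theorem Rad.tr (h : Rad a r) {p q : A × M} (hp : p.2 ∈ ball (0 : M) 1) (hq : q.2 ∈ ball (0 : M) 1)
    {ξ : M} (hξ : ξ ∈ ball (0 : M) 3) (hm : sm a r p ξ ∈ sm a r q '' ball 0 3) :
    ContDiffAt ℂ 1 (fun ξ' => Function.invFunOn (sm a r q) (ball 0 3) (sm a r p ξ')) ξ ∧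
    ‖fderiv ℂ (fun ξ' => Function.invFunOn (sm a r q) (ball 0 3) (sm a r p ξ')) ξ‖ ≤
      2 * |a.C| := by
  have rp := h.pos (a.ψ p.1 p.2)
  have rq := h.pos (a.ψ q.1 q.2)
  have m3 := b23 (aff_mem hp rp (h.le _) hξ)
  obtain ⟨ζ, hζ, e⟩ := id hm
  obtain ⟨t1, t2⟩ := a.tr p.1 q.1 _ m3 ⟨_, b23 (aff_mem hq rq (h.le _) hζ), e⟩
  have c1 := (h.cmp hp hξ).1
  have c2 := (h.cmp hq hζ).2
  rw [e] at c2
  set τ := fun ξ' => Function.invFunOn (a.ψ q.1) (ball 0 3) (a.ψ p.1 ξ') with hτ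
  have ev : (fun ξ' => Function.invFunOn (sm a r q) (ball 0 3) (sm a r p ξ')) =ᶠ[𝓝 ξ]
      fun ξ' => ((r (a.ψ q.1 q.2))⁻¹ : ℂ) • (τ (p.2 + (r (a.ψ p.1 p.2) : ℂ) • ξ') - q.2) := by
    filter_upwards [((h.cont hp).continuousAt (isOpen_ball.mem_nhds hξ)).preimage_mem_nhds
      ((h.opn hq isOpen_ball subset_rfl).mem_nhds hm)] with ξ' ⟨ζ', hζ', e'⟩
    have e2 : τ (p.2 + r (a.ψ p.1 p.2) • ξ') = q.2 + r (a.ψ q.1 q.2) • ζ' :=
      (congrArg _ e'.symm).trans ((a.inj q.1).leftInvOn_invFunOn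
        (b23 (aff_mem hq rq (h.le _) hζ')))
    rw [← e', (h.inj hq).leftInvOn_invFunOn hζ', ← ofReal_inv, ← rsmul, ← rsmul, e2, inv_aff _ _ rq]
  rw [rsmul] at t1 t2
  have hA : HasFDerivAt (fun ξ' : M => p.2 + (r (a.ψ p.1 p.2) : ℂ) • ξ')
      ((r (a.ψ p.1 p.2) : ℂ) • ContinuousLinearMap.id ℂ M) ξ :=
    ((hasFDerivAt_id ξ).const_smul _).const_add _
  have hD := ((((t1.differentiableAt one_ne_zero).hasFDerivAt.comp ξ hA).sub_const q.2).const_smul
    ((r (a.ψ q.1 q.2))⁻¹ : ℂ)).congr_of_eventuallyEq ev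
  have hC : ContDiffAt ℂ 1 (fun ξ' : M => p.2 + (r (a.ψ p.1 p.2) : ℂ) • ξ') ξ := by fun_prop
  refine ⟨(((t1.comp ξ hC).sub contDiffAt_const).const_smul _).congr_of_eventuallyEq ev, ?_⟩
  rw [hD.fderiv, ContinuousLinearMap.comp_smul, ContinuousLinearMap.comp_id, norm_smul, norm_smul,
    norm_inv, norm_real, norm_real, Real.norm_of_nonneg rp.le, Real.norm_of_nonneg rq.le,
    inv_mul_le_iff₀ rq]
  have t3 := t2.trans (le_abs_self _)
  nlinarith [norm_nonneg (fderiv ℂ τ (p.2 + (r (a.ψ p.1 p.2) : ℂ) • ξ)), abs_nonneg a.C]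

omit [IsScalarTower ℝ ℂ M] in
theorem Rad.lf [ProperSpace M] [T2Space Y] (h : Rad a r) : ∃ N : ℕ, ∀ (α : A) (S : Set M) (y : Y),
    S ⊆ ball 0 1 → (∀ c ∈ S, ∀ d ∈ S, c ≠ d → min (r (a.ψ α c)) (r (a.ψ α d)) ≤ ‖c - d‖) →
    ∃ O ∈ 𝓝 y, ∃ T : Finset M, T.card ≤ N ∧
      ∀ c ∈ S, (sm a r (α, c) '' closedBall 0 2 ∩ O).Nonempty → c ∈ T := by
  obtain ⟨N, hN⟩ := count (M := M)
  refine ⟨N, fun α S y h1 hS => ?_⟩
  have nr : ∀ c ∈ S, ∀ ξ ∈ closedBall (0 : M) 2,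
      ‖c + r (a.ψ α c) • ξ - c‖ ≤ 2 * r (a.ψ α c) ∧ ‖c + r (a.ψ α c) • ξ‖ ≤ 5 / 3 := by
    intro c hc ξ hξ
    have k : ‖c + r (a.ψ α c) • ξ - c‖ ≤ 2 * r (a.ψ α c) := by
      rw [add_sub_cancel_left, norm_smul, Real.norm_of_nonneg (h.pos _).le, mul_comm]
      exact mul_le_mul_of_nonneg_right (mem_closedBall_zero_iff.1 hξ) (h.pos _).le
    refine ⟨k, ?_⟩
    linarith [norm_le_insert' (c + r (a.ψ α c) • ξ) c, mem_ball_zero_iff.1 (h1 hc),
      h.le (a.ψ α c)]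
  by_cases hy : y ∈ a.ψ α '' closedBall 0 (5 / 3)
  · obtain ⟨x, hx, rfl⟩ := hy
    rw [mem_closedBall_zero_iff] at hx
    have ρ0 := h.pos (a.ψ α x)
    have ρ3 := h.le (a.ψ α x)
    have hb : ball x (r (a.ψ α x) / 4) ⊆ ball 0 3 := fun z hz => by
      rw [mem_ball_zero_iff]
      linarith [norm_le_insert' z x, mem_ball_iff_norm.1 hz]
    obtain ⟨T, t1, t2⟩ := hN (3 / 4 * r (a.ψ α x)) {c ∈ S | 3 / 4 * r (a.ψ α x) ≤ r (a.ψ α c)} x
      (by positivity) fun c hc d hd hne => (le_min hc.2 hd.2).trans (hS c hc.1 d hd.1 hne)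
    refine ⟨_, (a.opn α _ isOpen_ball hb).mem_nhds ⟨x, mem_ball_self (by positivity), rfl⟩, T, t1,
      ?_⟩
    rintro c hc ⟨_, ⟨ξ, hξ, rfl⟩, z, hz, e⟩
    obtain ⟨n1, n2⟩ := nr c hc ξ hξ
    obtain rfl := a.inj α (hb hz) (mem_ball_zero_iff.2 (n2.trans_lt (by norm_num))) e
    have n3 := mem_ball_iff_norm.1 hz
    have n4 := norm_sub_le_norm_sub_add_norm_sub c (c + r (a.ψ α c) • ξ) x
    rw [norm_sub_rev] at n1
    have n5 := abs_le.1 (h.lip α c (ball_subset_ball one_le_two (h1 hc)) x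
      (mem_ball_zero_iff.2 (by linarith)))
    exact t2 c ⟨hc, by linarith [n5.1, n5.2]⟩ (by linarith [n5.1, n5.2])
  · refine ⟨_, ((isCompact_closedBall 0 (5 / 3)).image_of_continuousOn ((a.cont α).mono
      (closedBall_subset_ball (by norm_num)))).isClosed.isOpen_compl.mem_nhds hy, ∅, N.zero_le, ?_⟩
    rintro c hc ⟨_, ⟨ξ, hξ, rfl⟩, e⟩
    exact (e ⟨_, mem_closedBall_zero_iff.2 (nr c hc ξ hξ).2, rfl⟩).elim

/-- The refined atlas. -/
theorem refine [FiniteDimensional ℂ M] [T2Space Y] (h : Rad a r) :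
    ∃ (J : Type) (p : J → A × M) (b : Atl M Y J), (∀ j, (p j).2 ∈ ball (0 : M) 1) ∧
      (∀ j, b.ψ j = sm a r (p j)) ∧ ∀ g, b.Hol g → a.Hol g := by
  classical
  have : ProperSpace M := FiniteDimensional.proper ℂ M
  choose S s1 s2 s3 using fun α => net (R := fun x => r (a.ψ α x)) fun _ => h.pos _
  obtain ⟨N, hN⟩ := h.lf
  have cv : ∀ α, ∀ x ∈ ball (0 : M) 1, ∃ c ∈ S α, (r (a.ψ α c))⁻¹ • (x - c) ∈ ball (0 : M) 1 := by
    intro α x hx
    obtain ⟨c, hc, e⟩ := s3 α x hx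
    refine ⟨c, hc, ?_⟩
    rwa [mem_ball_zero_iff, norm_smul, Real.norm_of_nonneg (inv_pos.2 (h.pos _)).le,
      inv_mul_lt_iff₀ (h.pos _), mul_one]
  refine ⟨{p : A × M // p.2 ∈ S p.1}, Subtype.val, ⟨fun j => sm a r j.1, 2 * |a.C|, a.mult * N,
    fun j => h.cont (s1 _ j.2), fun j => h.inj (s1 _ j.2), fun j U => h.opn (s1 _ j.2), fun y => ?_,
    fun j k ξ => h.tr (s1 _ j.2) (s1 _ k.2), fun y => ?_⟩, fun j => s1 _ j.2, fun _ => rfl,
    fun g hg => hol_of a fun β x hx => ?_⟩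
  · obtain ⟨α, x, hx, rfl⟩ := a.cov y
    obtain ⟨c, hc, e⟩ := cv α x hx
    exact ⟨⟨(α, c), hc⟩, _, e, congrArg (a.ψ α) (aff_inv c x (h.pos _))⟩
  · obtain ⟨O, hO, T, t1, t2⟩ := a.lf y
    choose O' o1 T' o2 o3 using fun α => hN α (S α) y (s1 α) (s2 α)
    refine ⟨O ∩ ⋂ α ∈ T, O' α, inter_mem hO ((biInter_finset_mem T).2 fun α _ => o1 α),
      (T.biUnion fun α => (T' α).image fun c => (α, c)).subtype _, ?_, ?_⟩
    · rw [Finset.card_subtype]
      exact (Finset.card_filter_le _ _).trans ((Finset.card_biUnion_le_card_mul _ _ N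
        fun α _ => Finset.card_image_le.trans (o2 α)).trans (Nat.mul_le_mul_right N t1))
    · rintro ⟨⟨α, c⟩, hc⟩ ⟨_, ⟨ξ, hξ, rfl⟩, e1, e2⟩
      have hα : α ∈ T := t2 α ⟨_, ⟨_, ball_subset_closedBall (aff_mem (s1 α hc) (h.pos _) (h.le _)
        (closedBall_subset_ball (by norm_num) hξ)), rfl⟩, e1⟩
      exact Finset.mem_subtype.2 (Finset.mem_biUnion.2 ⟨α, hα, Finset.mem_image_of_mem _
        (o3 α c hc ⟨_, ⟨ξ, hξ, rfl⟩, mem_iInter₂.1 e2 α hα⟩)⟩)
  · obtain ⟨c, hc, e⟩ := cv β x hx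
    have h1 := (hg ⟨(β, c), hc⟩).differentiableAt
      (isOpen_ball.mem_nhds (ball_subset_ball (by norm_num) e))
    have h2 : DifferentiableAt ℂ (fun z : M => (r (a.ψ β c))⁻¹ • (z - c)) x := by
      simp only [rsmul]
      fun_prop
    refine (h1.comp x h2).congr_of_eventuallyEq (Eventually.of_forall fun z => ?_)
    exact congrArg (fun w => g (a.ψ β w)) (aff_inv c z (h.pos _)).symm

end Pool.Agent.MP_8ac6f3_ag.K7

end

end MrgPart1

-- marker of a merged file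
example : 731051 + 661924 = 731051 + 661924 := rfl
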